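import Mathlib

/-!
# MP_afd993_co, Q1: domination numbers of graph covers

There is no absolute constant `c > 0` with `γ(G) ≥ c k γ(F)` for all `k`-fold covers `G` of `F`.

The base graph `F` is the graph on `{0,1} × (ℤ/q)^r` in which `(b,x)` and `(b',y)` are adjacent iff
`b ≠ b'` and `x i + y i ≠ 0` for all `i`; it has domination number more than `r`.  The cover is a
voltage lift with voltages the transpositions `(none, some s)`, `s = x + y`, and it has a perfect
dominating set.
-/

set_option autoImplicit false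

namespace Pool.Agent.Results.MP_afd993_co.NoLinearBound

/-- `D` is a dominating set of `G`. -/
def IsDominating {V : Type*} (G : SimpleGraph V) (D : Finset V) : Prop :=
  ∀ v, v ∉ D → ∃ u ∈ D, G.Adj v u

/-- The domination number. -/
noncomputable def gamma {V : Type*} (G : SimpleGraph V) : ℕ :=
  sInf {k | ∃ D : Finset V, IsDominating G D ∧ D.card = k}

/-- `G` is a cover of `F` with covering map `π`. -/
def IsCover {V W : Type*} (F : SimpleGraph V) (G : SimpleGraph W) (π : W → V) : Prop :=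
  Function.Surjective π ∧ ∀ v, Set.BijOn π (G.neighborSet v) (F.neighborSet (π v))

/-- All fibres of `π` have exactly `k` elements. -/
def IsKFold {V W : Type*} (π : W → V) (k : ℕ) : Prop :=
  ∀ u : V, (π ⁻¹' {u}).ncard = k

/-- The vertices of the base graph. -/
abbrev Base (q r : ℕ) : Type := Bool × (Fin r → ZMod q)

/-- The base graph: `(b,x) ∼ (b',y)` iff `b ≠ b'` and all coordinates of `x + y` are nonzero. -/
def base (q r : ℕ) : SimpleGraph (Base q r) where
  Adj u v := u.1 ≠ v.1 ∧ ∀ i, u.2 i + v.2 i ≠ 0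
  symm := ⟨fun u v h => ⟨h.1.symm, fun i => by rw [add_comm]; exact h.2 i⟩⟩
  loopless := ⟨fun u h => h.1 rfl⟩

/-- The colours. -/
abbrev Col (q r : ℕ) : Type := {s : Fin r → ZMod q // ∀ i, s i ≠ 0}

/-- The vertices of the cover. -/
abbrev Cov (q r : ℕ) : Type := Base q r × Option (Col q r)

/-- The cover: the edge of colour `s` acts on the fibre as the transposition `(none, some s)`. -/
def cover (q r : ℕ) [DecidableEq (Option (Col q r))] : SimpleGraph (Cov q r) where
  Adj u v := u.1.1 ≠ v.1.1 ∧ ∃ s : Col q r, u.1.2 + v.1.2 = s.1 ∧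
    v.2 = Equiv.swap none (some s) u.2
  symm := ⟨fun u v h => by
    obtain ⟨h1, s, h2, h3⟩ := h
    refine ⟨h1.symm, s, by rw [add_comm]; exact h2, ?_⟩
    rw [h3, Equiv.swap_apply_self]⟩
  loopless := ⟨fun u h => h.1 rfl⟩

section

variable (q r : ℕ) [NeZero q]

omit [NeZero q] in
theorem isCover [DecidableEq (Option (Col q r))] :
    IsCover (base q r) (cover q r) Prod.fst := by
  refine ⟨fun u => ⟨(u, none), rfl⟩, fun v => ⟨?_, ?_, ?_⟩⟩
  · rintro w ⟨h1, s, h2, h3⟩
    refine ⟨h1, fun i => ?_⟩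
    have := congrFun h2 i
    rw [Pi.add_apply] at this
    rw [this]
    exact s.2 i
  · rintro w ⟨h1, s, h2, h3⟩ w' ⟨h1', s', h2', h3'⟩ heq
    refine Prod.ext heq ?_
    have heq' : w.1 = w'.1 := heq
    have hs : s = s' := Subtype.ext (by rw [← h2, ← h2', heq'])
    rw [h3, h3', hs]
  · rintro u ⟨h1, h2⟩
    exact ⟨(u, Equiv.swap none (some ⟨v.1.2 + u.2, h2⟩) v.2), ⟨h1, ⟨_, h2⟩, rfl, rfl⟩, rfl⟩

theorem card_col [Fintype (Col q r)] : Fintype.card (Col q r) = (q - 1) ^ r := by
  classical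
  have e : Col q r ≃ (Fin r → {a : ZMod q // a ≠ 0}) :=
    Equiv.subtypePiEquivPi (p := fun _ a => a ≠ 0)
  have h1 : Fintype.card {a : ZMod q // a ≠ 0} = q - 1 := by
    rw [Fintype.card_subtype_compl, ZMod.card, Fintype.card_subtype_eq]
  rw [Fintype.card_congr e, Fintype.card_pi, Finset.prod_const, h1, Finset.card_univ,
    Fintype.card_fin]

theorem isKFold : IsKFold (Prod.fst : Cov q r → Base q r) ((q - 1) ^ r + 1) := by
  classical
  intro u
  have h : (Prod.fst : Cov q r → Base q r) ⁻¹' {u} = Set.range (fun z => (u, z)) := by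
    ext ⟨a, z⟩
    simp only [Set.mem_preimage, Set.mem_singleton_iff, Set.mem_range, Prod.mk.injEq]
    constructor
    · rintro rfl
      exact ⟨z, rfl, rfl⟩
    · rintro ⟨z', h1, _⟩
      exact h1.symm
  rw [h, ← Set.image_univ, Set.ncard_image_of_injective _ (by
    intro a b hab
    exact (Prod.ext_iff.mp hab).2), Set.ncard_univ, Nat.card_eq_fintype_card,
    Fintype.card_option, card_col]

theorem gamma_cover_le [DecidableEq (Option (Col q r))] :
    gamma (cover q r) ≤ 2 * q ^ r := by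
  classical
  let D : Finset (Cov q r) := Finset.univ.image (fun u : Base q r => (u, none))
  have hD : IsDominating (cover q r) D := by
    intro v hv
    obtain ⟨⟨b, x⟩, z⟩ := v
    rcases z with _ | s
    · exact absurd (Finset.mem_image.mpr ⟨(b, x), Finset.mem_univ _, rfl⟩) hv
    · refine ⟨((!b, s.1 - x), none), Finset.mem_image.mpr ⟨_, Finset.mem_univ _, rfl⟩, ?_, s, ?_, ?_⟩
      · cases b <;> simp
      · simp
      · simp
  have hcard : D.card ≤ 2 * q ^ r := by
    refine Finset.card_image_le.trans ?_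
    rw [Finset.card_univ, Fintype.card_prod, Fintype.card_bool, Fintype.card_pi, Finset.prod_const,
      ZMod.card, Finset.card_univ, Fintype.card_fin]
  have h : D.card ∈ {k | ∃ D : Finset (Cov q r), IsDominating (cover q r) D ∧ D.card = k} :=
    ⟨D, hD, rfl⟩
  exact (Nat.sInf_le h).trans hcard

omit [NeZero q] in
theorem not_dominating (hq : 2 ≤ q) (D : Finset (Base q r)) (hD : D.card ≤ r) :
    ¬ IsDominating (base q r) D := by
  classical
  intro h
  have : Fact (1 < q) := ⟨hq⟩
  let t : ∀ j : Fin r, j.1 < D.card → Base q r := fun j hj => (D.equivFin.symm ⟨j.1, hj⟩).1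
  let y : Fin r → ZMod q := fun j =>
    if hj : j.1 < D.card then
      (if (t j hj).1 = false then - (t j hj).2 j else (t j hj).2 j + 1) else 0
  have key : ∀ d ∈ D, ∃ (j : Fin r) (hj : j.1 < D.card), t j hj = d := by
    intro d hd
    let i := D.equivFin ⟨d, hd⟩
    refine ⟨⟨i.1, lt_of_lt_of_le i.2 hD⟩, i.2, ?_⟩
    show (D.equivFin.symm i).1 = d
    simp [i]
  by_cases hv : (true, y) ∈ D
  · obtain ⟨j, hj, ht⟩ := key _ hv
    have h1 : y j = (t j hj).2 j + 1 := by
      show (if hj : j.1 < D.card then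
        (if (t j hj).1 = false then - (t j hj).2 j else (t j hj).2 j + 1) else 0) = _
      rw [dif_pos hj, if_neg]
      rw [ht]
      simp
    rw [ht] at h1
    have h2 : (1 : ZMod q) = 0 := by
      have h3 : y j + 0 = y j + 1 := by rw [add_zero]; exact h1
      exact (add_left_cancel h3).symm
    exact one_ne_zero h2
  · obtain ⟨u, hu, hadj⟩ := h _ hv
    obtain ⟨j, hj, ht⟩ := key _ hu
    have hu1 : u.1 = false := by
      have := hadj.1
      simpa using this.symm
    have h1 : y j = - (t j hj).2 j := by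
      show (if hj : j.1 < D.card then
        (if (t j hj).1 = false then - (t j hj).2 j else (t j hj).2 j + 1) else 0) = _
      rw [dif_pos hj, if_pos]
      rw [ht]
      exact hu1
    apply hadj.2 j
    show y j + u.2 j = 0
    rw [h1, ht]
    simp

theorem lt_gamma_base (hq : 2 ≤ q) : r + 1 ≤ gamma (base q r) := by
  classical
  have hne : {k | ∃ D : Finset (Base q r), IsDominating (base q r) D ∧ D.card = k}.Nonempty :=
    ⟨_, Finset.univ, fun v hv => absurd (Finset.mem_univ v) hv, rfl⟩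
  obtain ⟨D, hD, hcard⟩ := Nat.sInf_mem hne
  by_contra hlt
  push Not at hlt
  refine not_dominating q r hq D ?_ hD
  rw [hcard]
  exact Nat.lt_succ_iff.mp hlt

end

theorem pow_bound (r : ℕ) (hr : 1 ≤ r) : ((2 * r : ℕ) : ℝ) ^ r ≤ 2 * (((2 * r : ℕ) : ℝ) - 1) ^ r := by
  have hpos : (0 : ℝ) < ((2 * r : ℕ) : ℝ) := by positivity
  have hr' : (1 : ℝ) ≤ r := by exact_mod_cast hr
  have h1 : 1 + (r : ℝ) * (-(1 / ((2 * r : ℕ) : ℝ))) ≤ (1 + (-(1 / ((2 * r : ℕ) : ℝ)))) ^ r := by
    apply one_add_mul_le_pow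
    have : 1 / ((2 * r : ℕ) : ℝ) ≤ 1 := by
      rw [div_le_one hpos]
      push_cast
      linarith
    linarith
  have h2 : 1 + (r : ℝ) * (-(1 / ((2 * r : ℕ) : ℝ))) = 1 / 2 := by
    push_cast
    field_simp
    ring
  rw [h2] at h1
  have h3 : (((2 * r : ℕ) : ℝ) - 1) ^ r
      = (1 + (-(1 / ((2 * r : ℕ) : ℝ)))) ^ r * ((2 * r : ℕ) : ℝ) ^ r := by
    rw [← mul_pow]
    congr 1
    field_simp
    ring
  rw [h3]
  have h4 : (0 : ℝ) ≤ ((2 * r : ℕ) : ℝ) ^ r := by positivity
  nlinarith

/-- **Main result.** For every `c > 0` there are `k ≥ 1`, a finite graph `F` and a `k`-fold cover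
`G` of `F` with `γ(G) < c k γ(F)`. -/
theorem result : ∀ c : ℝ, 0 < c → ∃ (k : ℕ) (V W : Type) (_ : Fintype V) (_ : Fintype W)
    (F : SimpleGraph V) (G : SimpleGraph W) (π : W → V),
    1 ≤ k ∧ IsCover F G π ∧ IsKFold π k ∧ (gamma G : ℝ) < c * k * gamma F := by
  classical
  intro c hc
  obtain ⟨r0, hr0⟩ := exists_nat_gt (4 / c)
  obtain ⟨r, hr, hr1⟩ : ∃ r : ℕ, 4 / c < r ∧ 1 ≤ r := by
    refine ⟨r0, hr0, ?_⟩
    have : (0 : ℝ) < r0 := lt_trans (by positivity) hr0
    exact_mod_cast this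
  have : NeZero (2 * r) := ⟨by omega⟩
  refine ⟨(2 * r - 1) ^ r + 1, Base (2 * r) r, Cov (2 * r) r, inferInstance, inferInstance,
    base (2 * r) r, cover (2 * r) r, Prod.fst, by omega, isCover _ _, isKFold _ _, ?_⟩
  have h1 : (gamma (cover (2 * r) r) : ℝ) ≤ 2 * ((2 * r : ℕ) : ℝ) ^ r := by
    exact_mod_cast gamma_cover_le (2 * r) r
  have h2 : (r : ℝ) + 1 ≤ gamma (base (2 * r) r) := by
    exact_mod_cast lt_gamma_base (2 * r) r (by omega)
  have h3 := pow_bound r hr1
  have h4 : ((((2 * r - 1) ^ r + 1 : ℕ) : ℕ) : ℝ) = (((2 * r : ℕ) : ℝ) - 1) ^ r + 1 := by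
    rw [Nat.cast_add, Nat.cast_pow, Nat.cast_sub (by omega)]
    simp
  rw [h4]
  have hcr : 4 < c * r := by
    rw [div_lt_iff₀ hc] at hr
    linarith
  set P : ℝ := (((2 * r : ℕ) : ℝ) - 1) ^ r with hP
  have hP0 : 0 ≤ P := by
    rw [hP]
    apply pow_nonneg
    have : (1 : ℝ) ≤ ((2 * r : ℕ) : ℝ) := by exact_mod_cast (by omega : 1 ≤ 2 * r)
    linarith
  have h5 : c * (P + 1) * ((r : ℝ) + 1) ≤ c * (P + 1) * gamma (base (2 * r) r) :=
    mul_le_mul_of_nonneg_left h2 (by positivity)
  have h6 : 4 * P + 4 < c * (P + 1) * ((r : ℝ) + 1) := by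
    have : 4 * (P + 1) < c * r * (P + 1) := mul_lt_mul_of_pos_right hcr (by positivity)
    have h7 : 0 < c * (P + 1) := by positivity
    calc 4 * P + 4 = 4 * (P + 1) := by ring
      _ < c * r * (P + 1) := this
      _ ≤ c * r * (P + 1) + c * (P + 1) := by linarith
      _ = c * (P + 1) * ((r : ℝ) + 1) := by ring
  linarith

end Pool.Agent.Results.MP_afd993_co.NoLinearBound
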